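import Pool.Agent.Lib.MP_df87fb_al.Defs
import Pool.Agent.Lib.MP_df87fb_al.Ray


namespace Pool.Agent.Retired.MP_df87fb_al.SqrtNormalForm

open Pool.Agent.Lib.MP_df87fb_al SemidirectProduct Multiplicative

/-- coordinates on the group: `t ^ k * v` -/
def coord (M : GL (Fin 2) ℤ) (p : Pt) : TorusBundleGroup M :=
  inr (ofAdd p.1) * inl (ofAdd ![p.2.1, p.2.2])

/-- the gluing map `v ↦ M⁻¹ v` in coordinates -/
def glue (M : GL (Fin 2) ℤ) (v : ℤ × ℤ) : ℤ × ℤ :=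
  ((glEquiv M).symm ![v.1, v.2] 0, (glEquiv M).symm ![v.1, v.2] 1)

theorem vec_eta (v : Fin 2 → ℤ) : ![v 0, v 1] = v := by
  ext i; fin_cases i <;> rfl

theorem coord_bijective (M : GL (Fin 2) ℤ) : Function.Bijective (coord M) := by
  constructor
  · rintro ⟨k, x, y⟩ ⟨k', x', y'⟩ h
    have h1 := congrArg SemidirectProduct.right h
    simp only [coord, mul_right, right_inr, right_inl, mul_one, EmbeddingLike.apply_eq_iff_eq] at h1
    subst h1
    simp only [coord, mul_right_inj, inl_inj, EmbeddingLike.apply_eq_iff_eq] at h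
    have hx := congrFun h 0
    have hy := congrFun h 1
    simp only [Matrix.cons_val_zero, Matrix.cons_val_one] at hx hy
    rw [hx, hy]
  · intro g
    let v : Fin 2 → ℤ := toAdd ((glAct M g.right)⁻¹ g.left)
    refine ⟨(toAdd g.right, v 0, v 1), ?_⟩
    simp only [coord, vec_eta, v, ofAdd_toAdd, inl_aut_inv]
    rw [← mul_assoc, ← mul_assoc, ← map_mul, mul_inv_cancel, map_one, one_mul,
      inl_left_mul_inr_right]

theorem coord_a (M : GL (Fin 2) ℤ) (p : Pt) :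
    coord M p * inl (ofAdd ![1, 0]) = coord M (p.1, p.2.1 + 1, p.2.2) := by
  simp only [coord, mul_assoc, ← map_mul, ← ofAdd_add]
  congr 3
  ext i; fin_cases i <;> simp

theorem coord_b (M : GL (Fin 2) ℤ) (p : Pt) :
    coord M p * inl (ofAdd ![0, 1]) = coord M (p.1, p.2.1, p.2.2 + 1) := by
  simp only [coord, mul_assoc, ← map_mul, ← ofAdd_add]
  congr 3
  ext i; fin_cases i <;> simp

theorem coord_t (M : GL (Fin 2) ℤ) (p : Pt) :
    coord M p * inr (ofAdd 1) = coord M (p.1 + 1, glue M p.2) := by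
  have h : ofAdd ((glEquiv M).symm ![p.2.1, p.2.2]) =
      (glAct M (ofAdd 1))⁻¹ (ofAdd ![p.2.1, p.2.2]) := by
    simp only [glAct, zpowersHom_apply, toAdd_ofAdd, zpow_one]
    rfl
  simp only [coord, glue, vec_eta, h, inl_aut_inv, ofAdd_add, map_mul, map_inv]
  group

theorem coord_eq (M : GL (Fin 2) ℤ) (p : Pt) :
    coord M p = (inr (ofAdd 1)) ^ p.1 * (inl (ofAdd ![1, 0])) ^ p.2.1 *
      (inl (ofAdd ![0, 1])) ^ p.2.2 := by
  simp only [coord, ← map_zpow, ← ofAdd_zsmul, mul_assoc, ← map_mul, ← ofAdd_add]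
  congr 3
  · simp
  · ext i; fin_cases i <;> simp

theorem mulVec_bound (N : Matrix (Fin 2) (Fin 2) ℤ) :
    ∃ K : ℕ, 1 ≤ K ∧ ∀ v : Fin 2 → ℤ,
      nrm (N.mulVec v 0, N.mulVec v 1) ≤ K * nrm (v 0, v 1) := by
  refine ⟨(N 0 0).natAbs + (N 0 1).natAbs + (N 1 0).natAbs + (N 1 1).natAbs + 1, by omega, ?_⟩
  intro v
  simp only [nrm, Matrix.mulVec, dotProduct, Fin.sum_univ_two]
  push_cast
  have h0 := le_max_left |v 0| |v 1|
  have h1 := le_max_right |v 0| |v 1|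
  have hm : 0 ≤ max |v 0| |v 1| := (abs_nonneg _).trans h0
  have key : ∀ a b : ℤ, |a * v 0 + b * v 1| ≤ (|a| + |b|) * max |v 0| |v 1| := by
    intro a b
    refine (abs_add_le _ _).trans ?_
    rw [abs_mul, abs_mul, add_mul]
    exact add_le_add (mul_le_mul_of_nonneg_left h0 (abs_nonneg _))
      (mul_le_mul_of_nonneg_left h1 (abs_nonneg _))
  refine max_le ((key _ _).trans ?_) ((key _ _).trans ?_) <;>
    refine mul_le_mul_of_nonneg_right ?_ hm <;>
    linarith [abs_nonneg (N 0 0), abs_nonneg (N 0 1), abs_nonneg (N 1 0), abs_nonneg (N 1 1)]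

theorem nrm_nonneg (v : ℤ × ℤ) : 0 ≤ nrm v := (abs_nonneg _).trans (le_max_left _ _)

theorem glue_bound (M : GL (Fin 2) ℤ) : ∃ K : ℕ, 1 ≤ K ∧ (∀ v, nrm (glue M v) ≤ K * nrm v) ∧
    ∀ v, nrm v ≤ K * nrm (glue M v) := by
  obtain ⟨K₁, h₁, hb₁⟩ := mulVec_bound ((M⁻¹ : GL (Fin 2) ℤ) : Matrix (Fin 2) (Fin 2) ℤ)
  obtain ⟨K₂, h₂, hb₂⟩ := mulVec_bound (M : Matrix (Fin 2) (Fin 2) ℤ)
  refine ⟨K₁ + K₂, by omega, fun v => ?_, fun v => ?_⟩
  · have h : nrm (glue M v) ≤ K₁ * nrm v := hb₁ ![v.1, v.2]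
    have := nrm_nonneg v
    push_cast
    nlinarith
  · have h := hb₂ ((glEquiv M).symm ![v.1, v.2])
    have h' : (M : Matrix (Fin 2) (Fin 2) ℤ).mulVec ((glEquiv M).symm ![v.1, v.2]) =
        ![v.1, v.2] := (glEquiv M).apply_symm_apply _
    rw [h'] at h
    have h : nrm v ≤ K₂ * nrm (glue M v) := h
    have := nrm_nonneg (glue M v)
    push_cast
    nlinarith

/-- For every `M ∈ GL(2, ℤ)` the group `ℤ² ⋊_M ℤ` has, for some finite generating family, a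
normal form closed under initial segments (so quasiregular) with the `√n`-fellow traveler
property. -/
theorem result (M : GL (Fin 2) ℤ) :
    ∃ (m : ℕ) (x : Fin m → TorusBundleGroup M), Subgroup.closure (Set.range x) = ⊤ ∧
      ∃ L : Set (List (Fin m × Bool)), IsNormalForm x L ∧ PrefixClosed L ∧ Quasiregular L ∧
        FellowTraveler x L (fun n => √(n : ℝ)) := by
  classical
  obtain ⟨K, hK, hA, hB⟩ := glue_bound M
  obtain ⟨e, he, h0, hnear, hsize⟩ := exists_slow_enum hK hA hB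
  let a : TorusBundleGroup M := inl (ofAdd ![1, 0])
  let b : TorusBundleGroup M := inl (ofAdd ![0, 1])
  let t : TorusBundleGroup M := inr (ofAdd 1)
  let Y : Finset (TorusBundleGroup M) := {1, a, b, t, a⁻¹, b⁻¹, t⁻¹}
  let Z : Finset (TorusBundleGroup M) := (Y ×ˢ Y ×ˢ Y).image fun q => q.1 * q.2.1 * q.2.2
  let x : Fin Z.card → TorusBundleGroup M := fun i => (Z.equivFin.symm i).1
  have hx : ∀ y₁ ∈ Y, ∀ y₂ ∈ Y, ∀ y₃ ∈ Y, ∃ j, x j = y₁ * y₂ * y₃ := by
    intro y₁ h₁ y₂ h₂ y₃ h₃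
    have : y₁ * y₂ * y₃ ∈ Z := Finset.mem_image.2 ⟨(y₁, y₂, y₃), by simp [h₁, h₂, h₃], rfl⟩
    exact ⟨Z.equivFin ⟨_, this⟩, by simp [x]⟩
  have hY1 : (1 : TorusBundleGroup M) ∈ Y := by simp [Y]
  have hone : ∀ y ∈ Y, HasLen x y 1 := by
    intro y hy
    obtain ⟨j, hj⟩ := hx y hy 1 hY1 1 hY1
    rw [mul_one, mul_one] at hj
    rw [← hj]
    exact HasLen.gen x j
  have hadj : ∀ p q, Adj (glue M) p q → ∃ y ∈ Y, coord M p * y = coord M q := by
    rintro p q (rfl | (rfl | rfl | rfl) | (rfl | rfl | rfl))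
    · exact ⟨1, hY1, mul_one _⟩
    · exact ⟨a, by simp [Y], coord_a M p⟩
    · exact ⟨b, by simp [Y], coord_b M p⟩
    · exact ⟨t, by simp [Y], coord_t M p⟩
    · exact ⟨a⁻¹, by simp [Y], by rw [← coord_a M q]; exact mul_inv_cancel_right _ _⟩
    · exact ⟨b⁻¹, by simp [Y], by rw [← coord_b M q]; exact mul_inv_cancel_right _ _⟩
    · exact ⟨t⁻¹, by simp [Y], by rw [← coord_t M q]; exact mul_inv_cancel_right _ _⟩
  refine ⟨Z.card, x, normalForm_of_ray x (coord M ∘ e) ((coord_bijective M).comp he) ?_ ?_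
    (3 * K ^ 2) ?_⟩
  · simp only [Function.comp, h0, coord_eq, zpow_zero, mul_one]
  · intro i
    obtain ⟨c, d, h1, h2, h3⟩ := hnear i
    obtain ⟨y₁, hy₁, e₁⟩ := hadj _ _ h1
    obtain ⟨y₂, hy₂, e₂⟩ := hadj _ _ h2
    obtain ⟨y₃, hy₃, e₃⟩ := hadj _ _ h3
    obtain ⟨j, hj⟩ := hx y₁ hy₁ y₂ hy₂ y₃ hy₃
    refine ⟨j, ?_⟩
    simp only [Function.comp]
    rw [hj, ← mul_assoc, ← mul_assoc, e₁, e₂, e₃]
  · intro i
    refine ⟨_, ?_, (hsize i).trans (le_of_eq (by ring))⟩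
    simp only [Function.comp, coord_eq]
    exact (((hone t (by simp [Y])).zpow _).mul ((hone a (by simp [Y])).zpow _)).mul
      ((hone b (by simp [Y])).zpow _)

end Pool.Agent.Retired.MP_df87fb_al.SqrtNormalForm
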